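import Pool.Agent.P.MP_b84a00_al.Group

namespace Pool.Agent.Results.MP_b84a00_al.Counterexample

/-- The characteristic of `x`: at the prime `p` it is the `p`-height of `x`, the supremum in
`ℕ∞` of all `n` with `x ∈ p ^ n G`. -/
noncomputable def characteristic (G : Type) [AddCommGroup G] (x : G) (p : Nat.Primes) : ℕ∞ :=
  ⨆ (n : ℕ) (_ : ∃ y : G, x = (p : ℕ) ^ n • y), (n : ℕ∞)

/-- Elements with equal characteristic are related by an automorphism. -/
def Transitive (G : Type) [AddCommGroup G] : Prop :=
  ∀ x y : G, characteristic G x = characteristic G y → ∃ φ : G ≃+ G, φ x = y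

/-- Elements with equal characteristic are related by an endomorphism. -/
def KrylovTransitive (G : Type) [AddCommGroup G] : Prop :=
  ∀ x y : G, characteristic G x = characteristic G y → ∃ φ : G →+ G, φ x = y

theorem result : ∃ (G : Type) (_ : AddCommGroup G), IsAddTorsionFree G ∧
    (∀ x : G, (∀ n : ℕ, n ≠ 0 → ∃ y : G, x = n • y) → x = 0) ∧
    KrylovTransitive (G × G) ∧ ¬ Transitive G := by
  obtain ⟨G, inst, h1, h2, h3, x, y, h4, h5⟩ := Pool.Agent.P.MP_b84a00_al.main
  refine ⟨G, inst, h1, h2, fun a b hab => h3 a b fun p k hk => ?_, fun h => ?_⟩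
  · exact Pool.Agent.P.MP_b84a00_al.div_of_le_height b p k
      (le_of_le_of_eq (le_iSup₂_of_le k hk le_rfl) (congrFun hab p))
  · obtain ⟨φ, hφ⟩ := h x y (funext fun p => by simp only [characteristic, h4])
    exact h5 φ hφ

end Pool.Agent.Results.MP_b84a00_al.Counterexample
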